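import Pool.Agent.X118.EL.Stm

/-!
# Project EL, part REG: Lipschitz regularisation
-/

set_option autoImplicit false

namespace Pool.Agent.X255.EL

theorem t_REG : Pool.Agent.X118.EL.S_REG := by
  intro S _ act hiso hsur ψ H h01 hH hπ t ht
  have hbdd : ∀ A u, BddBelow (Set.range fun u' => ψ A u' + dist u u' / t) := by
    intro A u
    refine ⟨0, ?_⟩
    rintro _ ⟨u', rfl⟩
    exact add_nonneg (h01 A u').1 (div_nonneg dist_nonneg ht.le)
  have hle : ∀ A u u', (⨅ u', (ψ A u' + dist u u' / t)) ≤ ψ A u' + dist u u' / t := fun A u u' => ciInf_le (hbdd A u) u'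
  have hle0 : ∀ A u, (⨅ u', (ψ A u' + dist u u' / t)) ≤ ψ A u := by
    intro A u
    have h1 := hle A u u
    rwa [dist_self, zero_div, add_zero] at h1
  refine ⟨fun A u => ⨅ u', (ψ A u' + dist u u' / t), fun A u => ⟨?_, (hle0 A u).trans (h01 A u).2⟩, fun A u => ?_,
    fun A u v => ?_, fun π A u => ?_⟩
  · exact Real.iInf_nonneg fun u' => add_nonneg (h01 A u').1 (div_nonneg dist_nonneg ht.le)
  · haveI : Nonempty S := ⟨u⟩
    have h1 : ψ A u - |H| * t ≤ ⨅ u', (ψ A u' + dist u u' / t) := by
      refine le_ciInf fun u' => ?_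
      have hd : 0 ≤ dist u u' := dist_nonneg
      have h2 : |ψ A u - ψ A u'| ^ 2 ≤ |H| * dist u u' :=
        (hH A u u').trans (mul_le_mul_of_nonneg_right (le_abs_self H) hd)
      have h3 : 0 ≤ dist u u' / t + |H| * t := add_nonneg (div_nonneg hd ht.le) (mul_nonneg (abs_nonneg H) ht.le)
      have h4 : |ψ A u - ψ A u'| ^ 2 ≤ (dist u u' / t + |H| * t) ^ 2 := by
        have h5 : (dist u u' / t) * (|H| * t) = |H| * dist u u' := by
          field_simp
        have h6 : 0 ≤ |H| * dist u u' := mul_nonneg (abs_nonneg H) hd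
        nlinarith [sq_nonneg (dist u u' / t), sq_nonneg (|H| * t)]
      have h7 : |ψ A u - ψ A u'| ≤ dist u u' / t + |H| * t := by
        have h8 := abs_le_of_sq_le_sq h4 h3
        rwa [abs_abs] at h8
      have h9 := (abs_le.1 h7).2
      linarith
    rw [abs_le]
    have h2 := hle0 A u
    have h3 : 0 ≤ |H| * t := mul_nonneg (abs_nonneg H) ht.le
    exact ⟨by linarith, by linarith⟩
  · haveI : Nonempty S := ⟨u⟩
    have key : ∀ u v, (⨅ u', (ψ A u' + dist u u' / t)) - dist u v / t ≤ ⨅ u', (ψ A u' + dist v u' / t) := by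
      intro u v
      refine le_ciInf fun u' => ?_
      have h1 := hle A u u'
      have h2 : dist u u' / t ≤ dist u v / t + dist v u' / t := by
        rw [← add_div]
        exact div_le_div_of_nonneg_right (dist_triangle u v u') ht.le
      linarith
    have h1 := key u v
    have h2 := key v u
    rw [dist_comm v u] at h2
    rw [abs_le]
    exact ⟨by linarith, by linarith⟩
  · have h1 := (hsur π).iInf_comp (fun u' => ψ A u' + dist (act π u) u' / t)
    show (⨅ u', (ψ A u' + dist (act π u) u' / t)) = ⨅ u', (ψ (π ⁻¹' A) u' + dist u u' / t)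
    rw [← h1]
    refine iInf_congr fun v => ?_
    rw [hπ π A v, (hiso π).dist_eq]

end Pool.Agent.X255.EL
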